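import Pool.Agent.BE01.Stmts

/-!
# Squad BE01, module LIA
-/

namespace Pool.Agent.BE01.H39

open Set Filter Topology MeasureTheory

/-- integrability of `(t + τ)^(-m)` -/
lemma integrableOn_shift {t m : ℝ} (ht : 0 < t) (hm : 1 < m) :
    IntegrableOn (fun τ : ℝ => (t + τ) ^ (-m)) (Ioi 0) := by
  have h := integrableOn_add_rpow_Ioi_of_lt (a := -m) (c := 0) (m := t) (by linarith) (by linarith)
  refine h.congr_fun (fun τ _ => ?_) measurableSet_Ioi
  change (τ + t) ^ (-m) = _
  rw [add_comm]

/-- the value of the integral -/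
lemma integral_shift {t m : ℝ} (ht : 0 < t) (hm : 1 < m) :
    ∫ τ in Ioi (0 : ℝ), (t + τ) ^ (-m) = t ^ (1 - m) / (m - 1) := by
  have hm1 : m - 1 ≠ 0 := by linarith
  have hd : ∀ τ ∈ Ici (0 : ℝ), HasDerivAt (fun τ : ℝ => -((t + τ) ^ (1 - m) / (m - 1)))
      ((t + τ) ^ (-m)) τ := by
    intro τ hτ
    have hpos : 0 < t + τ := by
      have : (0 : ℝ) ≤ τ := hτ
      linarith
    have h1 : HasDerivAt (fun τ : ℝ => t + τ) 1 τ := (hasDerivAt_id τ).const_add t
    have h2 := h1.rpow_const (p := 1 - m) (Or.inl hpos.ne')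
    have h3 := (h2.div_const (m - 1)).neg
    have e : -(1 * (1 - m) * (t + τ) ^ (1 - m - 1) / (m - 1)) = (t + τ) ^ (-m) := by
      have : 1 - m - 1 = -m := by ring
      rw [this]
      field_simp
      ring
    rw [e] at h3
    exact h3
  have htend : Tendsto (fun τ : ℝ => -((t + τ) ^ (1 - m) / (m - 1))) atTop (𝓝 0) := by
    have h1 : Tendsto (fun x : ℝ => x ^ (-(m - 1))) atTop (𝓝 0) :=
      tendsto_rpow_neg_atTop (by linarith)
    have h2 : Tendsto (fun τ : ℝ => t + τ) atTop atTop := tendsto_atTop_add_const_left _ _ tendsto_id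
    have h3 := ((h1.comp h2).div_const (m - 1)).neg
    rw [zero_div, neg_zero] at h3
    refine h3.congr fun τ => ?_
    change -((t + τ) ^ (-(m - 1)) / (m - 1)) = _
    rw [neg_sub]
  have h := integral_Ioi_of_hasDerivAt_of_tendsto' hd (integrableOn_shift ht hm) htend
  rw [h]
  simp

variable {H : Type} [NormedAddCommGroup H] [InnerProductSpace ℝ H]

/-- continuity of `τ ↦ T τ (f (t + τ))` -/
lemma cont_tau (T : ℝ → H →L[ℝ] H) (f : ℝ → H) {t0 t : ℝ} (hT : ∀ τ h, ‖T τ h‖ ≤ ‖h‖)
    (hTc : ∀ h, Continuous fun τ => T τ h) (hf : ContinuousOn f (Ioi t0)) (ht : t0 < t) :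
    ContinuousOn (fun τ => T τ (f (t + τ))) (Ioi 0) := by
  intro τ hτ
  apply ContinuousAt.continuousWithinAt
  have hτ' : (0 : ℝ) < τ := hτ
  have hft : ContinuousAt f (t + τ) := hf.continuousAt (Ioi_mem_nhds (by linarith))
  have h1 : Tendsto (fun σ => f (t + σ) - f (t + τ)) (𝓝 τ) (𝓝 0) := by
    have h2 : ContinuousAt (fun σ => f (t + σ)) τ :=
      ContinuousAt.comp (g := f) (f := fun σ => t + σ) hft
        (continuousAt_const.add continuousAt_id)
    have h3 : Tendsto (fun σ => f (t + σ) - f (t + τ)) (𝓝 τ) (𝓝 (f (t + τ) - f (t + τ))) :=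
      h2.tendsto.sub tendsto_const_nhds
    rwa [sub_self] at h3
  have h4 : Tendsto (fun σ => T σ (f (t + σ) - f (t + τ))) (𝓝 τ) (𝓝 0) :=
    squeeze_zero_norm (fun σ => hT σ _) (by simpa using h1.norm)
  have h5 : Tendsto (fun σ => T σ (f (t + τ))) (𝓝 τ) (𝓝 (T τ (f (t + τ)))) :=
    (hTc (f (t + τ))).tendsto τ
  have h6 := h4.add h5
  rw [zero_add] at h6
  refine h6.congr fun σ => ?_
  rw [map_sub, sub_add_cancel]

theorem lia : LiaStmt := by
  intro H _ _ _ T f t0 m N ht0 hm hT hTc hf hN
  have hbd : ∀ t > t0, ∀ τ ∈ Ioi (0 : ℝ), ‖T τ (f (t + τ))‖ ≤ N * (t + τ) ^ (-m) := by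
    intro t ht τ hτ
    have hτ' : (0 : ℝ) < τ := hτ
    exact (hT τ _).trans (hN (t + τ) (by linarith))
  have hmeas : ∀ t > t0, AEStronglyMeasurable (fun τ => T τ (f (t + τ)))
      (volume.restrict (Ioi 0)) := fun t ht =>
    (cont_tau T f hT hTc hf ht).aestronglyMeasurable measurableSet_Ioi
  have hint : ∀ t > t0, IntegrableOn (fun τ => T τ (f (t + τ))) (Ioi 0) := by
    intro t ht
    refine Integrable.mono' ((integrableOn_shift (by linarith) hm).const_mul N) (hmeas t ht) ?_
    exact (ae_restrict_iff' measurableSet_Ioi).2 (Eventually.of_forall (hbd t ht))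
  refine ⟨hint, ?_, ?_⟩
  · intro t ht
    apply ContinuousAt.continuousWithinAt
    have ht' : t0 < t := ht
    obtain ⟨t', h1, h2⟩ := exists_between ht'
    have hN0 : 0 ≤ N := by
      have h3 := hN t ht
      have h4 : 0 < t ^ (-m) := Real.rpow_pos_of_pos (by linarith) _
      by_contra hneg
      push Not at hneg
      have : N * t ^ (-m) < 0 := mul_neg_of_neg_of_pos hneg h4
      linarith [norm_nonneg (f t)]
    apply continuousAt_of_dominated (bound := fun τ => N * (t' + τ) ^ (-m))
    · filter_upwards [Ioi_mem_nhds ht'] with s hs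
      exact hmeas s hs
    · filter_upwards [Ioi_mem_nhds h2] with s hs
      refine (ae_restrict_iff' measurableSet_Ioi).2 (Eventually.of_forall fun τ hτ => ?_)
      have hτ' : (0 : ℝ) < τ := hτ
      have hs' : t' < s := hs
      refine (hbd s (by linarith) τ hτ).trans ?_
      apply mul_le_mul_of_nonneg_left _ hN0
      apply Real.rpow_le_rpow_of_nonpos <;> linarith
    · exact (integrableOn_shift (by linarith) hm).const_mul N
    · refine (ae_restrict_iff' measurableSet_Ioi).2 (Eventually.of_forall fun τ hτ => ?_)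
      have hτ' : (0 : ℝ) < τ := hτ
      have hft : ContinuousAt f (t + τ) := hf.continuousAt (Ioi_mem_nhds (by linarith))
      have h3 : ContinuousAt (fun s => f (s + τ)) t :=
        ContinuousAt.comp (g := f) (f := fun s => s + τ) hft
          (continuousAt_id.add continuousAt_const)
      exact (T τ).continuous.continuousAt.comp h3
  · intro t ht
    have h1 := norm_integral_le_of_norm_le
      ((integrableOn_shift (t := t) (by linarith) hm).const_mul N)
      ((ae_restrict_iff' measurableSet_Ioi).2 (Eventually.of_forall (hbd t ht)))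
    refine h1.trans (le_of_eq ?_)
    rw [integral_const_mul, integral_shift (by linarith) hm]
    ring

end Pool.Agent.BE01.H39
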